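import Pool.Agent.N328.LF.Defs

/-!
# LF/U2: one random permutation, `σ A` close to `B` (for helper328; helper415)
-/

set_option autoImplicit false

namespace Pool.Agent.N415.LF
open Finset Pool.Agent.N328.LF

/-- the permutations which map `A` to `A'` -/
def fib {N : ℕ} (A A' : Finset (Fin N)) : Finset (Equiv.Perm (Fin N)) :=
  univ.filter fun σ => A.map σ.toEmbedding = A'

theorem exists_map {N : ℕ} (A A' : Finset (Fin N)) (h : A'.card = A.card) :
    ∃ τ : Equiv.Perm (Fin N), A.map τ.toEmbedding = A' := by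
  obtain ⟨τ, hτ⟩ : ∃ τ : Equiv.Perm (Fin N), ∀ x ∈ A, τ x ∈ A' := by
    refine ⟨(Finset.equivOfCardEq h.symm : {x // x ∈ A} ≃ {x // x ∈ A'}).extendSubtype, ?_⟩
    intro x hx
    exact Equiv.extendSubtype_mem _ x hx
  refine ⟨τ, eq_of_subset_of_card_le ?_ ?_⟩
  · intro y hy
    obtain ⟨x, hx, rfl⟩ := mem_map.1 hy
    exact hτ x hx
  · rw [card_map, h]

theorem fib_card {N : ℕ} (A A' : Finset (Fin N)) (h : A'.card = A.card) :
    (fib A A').card = (fib A A).card := by
  obtain ⟨τ, hτ⟩ := exists_map A A' h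
  symm
  refine card_equiv (Equiv.mulLeft τ) ?_
  intro σ
  simp only [fib, mem_filter, mem_univ, true_and, Equiv.coe_mulLeft]
  have e : A.map (τ * σ).toEmbedding = (A.map σ.toEmbedding).map τ.toEmbedding := by
    rw [map_map]
    rfl
  rw [e]
  constructor
  · intro h1
    rw [h1, hτ]
  · intro h1
    rw [← hτ] at h1
    exact map_injective _ h1

theorem fact_eq {N : ℕ} (A : Finset (Fin N)) :
    N.factorial = N.choose A.card * (fib A A).card := by
  have h1 : (univ : Finset (Equiv.Perm (Fin N))).card = N.factorial := by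
    rw [card_univ, Fintype.card_perm, Fintype.card_fin]
  rw [← h1, card_eq_sum_card_fiberwise (f := fun σ : Equiv.Perm (Fin N) => A.map σ.toEmbedding)
    (t := powersetCard A.card univ)]
  · rw [sum_congr rfl (g := fun _ => (fib A A).card), sum_const, smul_eq_mul, card_powersetCard,
      card_univ, Fintype.card_fin]
    intro A' hA'
    exact fib_card A A' (mem_powersetCard.1 hA').2
  · intro σ _
    exact mem_coe.2 (mem_powersetCard.2 ⟨subset_univ _, card_map _⟩)

theorem dist_eq {N : ℕ} (A B : Finset (Fin N)) (σ : Equiv.Perm (Fin N)) :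
    (univ.filter (fun i => ¬ (i ∈ A ↔ σ i ∈ B))).card =
      (symmDiff (A.map σ.toEmbedding) B).card := by
  rw [← card_map σ.toEmbedding]
  congr 1
  ext j
  rw [mem_map, mem_symmDiff]
  constructor
  · rintro ⟨i, hi, rfl⟩
    have h1 := (mem_filter.1 hi).2
    have h2 : σ.toEmbedding i ∈ A.map σ.toEmbedding ↔ i ∈ A := mem_map' _
    rw [h2]
    change (i ∈ A ∧ σ i ∉ B) ∨ (σ i ∈ B ∧ i ∉ A)
    tauto
  · intro h
    refine ⟨σ.symm j, mem_filter.2 ⟨mem_univ _, ?_⟩, by simp⟩
    have h2 : j ∈ A.map σ.toEmbedding ↔ σ.symm j ∈ A := by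
      rw [mem_map_equiv]
    rw [h2] at h
    rw [Equiv.apply_symm_apply]
    tauto

theorem small_card (N d : ℕ) :
    ((univ : Finset (Finset (Fin N))).filter fun D => D.card ≤ d).card ≤ vol N d := by
  have h1 : (univ : Finset (Finset (Fin N))).filter (fun D => D.card ≤ d) ⊆
      (range (d + 1)).biUnion fun i => powersetCard i univ := by
    intro D hD
    rw [mem_biUnion]
    exact ⟨D.card, mem_range.2 (Nat.lt_succ_of_le (mem_filter.1 hD).2),
      mem_powersetCard.2 ⟨subset_univ _, rfl⟩⟩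
  refine (card_le_card h1).trans (card_biUnion_le.trans (le_of_eq ?_))
  unfold vol
  refine sum_congr rfl fun i _ => ?_
  rw [card_powersetCard, card_univ, Fintype.card_fin]

theorem u2a (N : ℕ) (A B : Finset (Fin N)) (d : ℕ) :
    (univ.filter (fun σ : Equiv.Perm (Fin N) =>
      (univ.filter (fun i => ¬ (i ∈ A ↔ σ i ∈ B))).card ≤ d)).card * N.choose A.card ≤
        N.factorial * vol N d := by
  obtain ⟨T, hT⟩ : ∃ T : Finset (Finset (Fin N)),
      T = (powersetCard A.card univ).filter fun A' => (symmDiff A' B).card ≤ d := ⟨_, rfl⟩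
  have hTv : T.card ≤ vol N d := by
    refine le_trans ?_ (small_card N d)
    refine card_le_card_of_injOn (fun A' => symmDiff A' B) ?_ ?_
    · intro A' hA'
      rw [hT] at hA'
      exact mem_coe.2 (mem_filter.2 ⟨mem_univ _, (mem_filter.1 (mem_coe.1 hA')).2⟩)
    · intro A' _ A'' _ h
      exact symmDiff_left_injective B h
  have hS : (univ.filter (fun σ : Equiv.Perm (Fin N) =>
      (univ.filter (fun i => ¬ (i ∈ A ↔ σ i ∈ B))).card ≤ d)).card ≤ T.card * (fib A A).card := by
    rw [card_eq_sum_card_fiberwise (f := fun σ : Equiv.Perm (Fin N) => A.map σ.toEmbedding)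
      (t := T)]
    · rw [← smul_eq_mul, ← sum_const]
      refine sum_le_sum fun A' hA' => ?_
      rw [hT] at hA'
      rw [← fib_card A A' (mem_powersetCard.1 (mem_filter.1 hA').1).2]
      refine card_le_card ?_
      intro σ hσ
      exact mem_filter.2 ⟨mem_univ _, (mem_filter.1 hσ).2⟩
    · intro σ hσ
      have h1 := (mem_filter.1 (mem_coe.1 hσ)).2
      rw [dist_eq] at h1
      rw [hT]
      exact mem_coe.2 (mem_filter.2 ⟨mem_powersetCard.2 ⟨subset_univ _, card_map _⟩, h1⟩)
  calc _ ≤ T.card * (fib A A).card * N.choose A.card := Nat.mul_le_mul_right _ hS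
    _ = (N.choose A.card * (fib A A).card) * T.card := by ring
    _ = N.factorial * T.card := by rw [← fact_eq]
    _ ≤ _ := Nat.mul_le_mul_left _ hTv

theorem inv_card (N : ℕ) (A B : Finset (Fin N)) (d : ℕ) :
    (univ.filter (fun σ : Equiv.Perm (Fin N) =>
      (univ.filter (fun i => ¬ (i ∈ A ↔ σ i ∈ B))).card ≤ d)).card =
    (univ.filter (fun σ : Equiv.Perm (Fin N) =>
      (univ.filter (fun i => ¬ (i ∈ B ↔ σ i ∈ A))).card ≤ d)).card := by
  refine card_equiv (Equiv.inv _) ?_
  intro σ
  have h1 : (univ.filter (fun i => ¬ (i ∈ A ↔ σ i ∈ B))).card =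
      (univ.filter (fun i => ¬ (i ∈ B ↔ σ⁻¹ i ∈ A))).card := by
    refine card_equiv σ ?_
    intro i
    have e : σ⁻¹ (σ i) = i := σ.symm_apply_apply i
    simp only [mem_filter, mem_univ, true_and]
    rw [e]
    tauto
  simp only [mem_filter, mem_univ, true_and, Equiv.inv_apply]
  rw [h1]

theorem u2 (N : ℕ) (A B : Finset (Fin N)) (d : ℕ) :
    (univ.filter (fun σ : Equiv.Perm (Fin N) =>
      (univ.filter (fun i => ¬ (i ∈ A ↔ σ i ∈ B))).card ≤ d)).card * N.choose A.card ≤
        N.factorial * vol N d ∧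
    (univ.filter (fun σ : Equiv.Perm (Fin N) =>
      (univ.filter (fun i => ¬ (i ∈ A ↔ σ i ∈ B))).card ≤ d)).card * N.choose B.card ≤
        N.factorial * vol N d := by
  refine ⟨u2a N A B d, ?_⟩
  rw [inv_card]
  exact u2a N B A d

end Pool.Agent.N415.LF
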